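import Pool.Agent.Lib.BorsukUlam.OddSystem

/-! The Borsuk-Ulam theorem, from real solutions of odd polynomial systems. -/

open MvPolynomial Module Finset

namespace Pool.Agent.Lib.BorsukUlam

/-- the sum of squares of the variables -/
noncomputable def sqP (m : ℕ) : MvPolynomial (Fin m) ℝ := ∑ i, X i ^ 2

theorem isHomogeneous_sqP (m : ℕ) : (sqP m).IsHomogeneous 2 :=
  IsHomogeneous.sum _ _ _ fun i _ => isHomogeneous_X_pow i 2

theorem eval_sqP {m : ℕ} (x : Fin m → ℝ) : eval x (sqP m) = ∑ i, x i ^ 2 := by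
  simp [sqP]

theorem eval_smul_of_isHomogeneous {m d : ℕ} {p : MvPolynomial (Fin m) ℝ}
    (hp : p.IsHomogeneous d) (t : ℝ) (x : Fin m → ℝ) : eval (t • x) p = t ^ d * eval x p := by
  rw [eval_eq, eval_eq, Finset.mul_sum]
  refine Finset.sum_congr rfl fun a ha => ?_
  have h1 : ∑ i ∈ a.support, a i = d := (hp.degree_eq_sum_deg_support ha).symm
  simp only [Pi.smul_apply, smul_eq_mul, mul_pow, Finset.prod_mul_distrib,
    Finset.prod_pow_eq_pow_sum, h1]
  ring

/-- the odd part of `p`, homogenised to degree `d` with the sum of squares. -/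
noncomputable def homOdd (m d : ℕ) (p : MvPolynomial (Fin m) ℝ) : MvPolynomial (Fin m) ℝ :=
  ∑ j ∈ (range (d + 1)).filter Odd, homogeneousComponent j p * sqP m ^ ((d - j) / 2)

theorem isHomogeneous_homOdd {m d : ℕ} (hd : Odd d) (p : MvPolynomial (Fin m) ℝ) :
    (homOdd m d p).IsHomogeneous d := by
  refine IsHomogeneous.sum _ _ _ fun j hj => ?_
  rw [Finset.mem_filter, Finset.mem_range] at hj
  have h1 : d = j + 2 * ((d - j) / 2) := by
    obtain ⟨a, ha⟩ := hd
    obtain ⟨b, hb⟩ := hj.2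
    omega
  have h2 := (homogeneousComponent_isHomogeneous j p).mul
    ((isHomogeneous_sqP m).pow ((d - j) / 2))
  rwa [← h1] at h2

theorem eval_eq_sum_homogeneousComponent {m d : ℕ} {p : MvPolynomial (Fin m) ℝ}
    (hp : p.totalDegree ≤ d) (x : Fin m → ℝ) :
    eval x p = ∑ j ∈ range (d + 1), eval x (homogeneousComponent j p) := by
  conv_lhs => rw [← sum_homogeneousComponent p]
  rw [map_sum]
  refine Finset.sum_subset (fun j hj => ?_) fun j _ hj => ?_
  · rw [Finset.mem_range] at hj ⊢; omega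
  · rw [Finset.mem_range] at hj
    rw [homogeneousComponent_eq_zero _ _ (by omega), map_zero]

theorem eval_homOdd {m d : ℕ} {p : MvPolynomial (Fin m) ℝ} (hp : p.totalDegree ≤ d)
    {x : Fin m → ℝ} (hx : ∑ i, x i ^ 2 = 1) :
    eval x (homOdd m d p) = (eval x p - eval (-x) p) / 2 := by
  have h1 : eval x (homOdd m d p) =
      ∑ j ∈ (range (d + 1)).filter Odd, eval x (homogeneousComponent j p) := by
    unfold homOdd
    rw [map_sum]
    refine Finset.sum_congr rfl fun j _ => ?_
    rw [map_mul, map_pow, eval_sqP, hx, one_pow, mul_one]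
  rw [h1, eval_eq_sum_homogeneousComponent hp x, eval_eq_sum_homogeneousComponent hp (-x),
    ← Finset.sum_sub_distrib, Finset.sum_filter, Finset.sum_div]
  refine Finset.sum_congr rfl fun j _ => ?_
  have h2 : -x = (-1 : ℝ) • x := by simp
  rw [h2, eval_smul_of_isHomogeneous (homogeneousComponent_isHomogeneous j p)]
  split_ifs with h
  · rw [h.neg_one_pow]; ring
  · rw [Nat.not_odd_iff_even] at h
    rw [h.neg_one_pow]; ring

theorem totalDegree_aeval_le {σ τ : Type*} {q : σ → MvPolynomial τ ℝ}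
    (hq : ∀ i, (q i).totalDegree ≤ 1) (p : MvPolynomial σ ℝ) :
    (aeval q p).totalDegree ≤ p.totalDegree := by
  rw [aeval_def, eval₂_eq]
  refine (totalDegree_finsetSum _ _).trans ?_
  refine Finset.sup_le fun a ha => ?_
  refine (totalDegree_mul _ _).trans ?_
  rw [algebraMap_eq, totalDegree_C, zero_add]
  refine (totalDegree_finsetProd _ _).trans ?_
  refine le_trans ?_ (le_totalDegree ha)
  refine Finset.sum_le_sum fun i _ => ?_
  refine (totalDegree_pow _ _).trans ?_
  exact (Nat.mul_le_mul_left _ (hq i)).trans (by rw [mul_one])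

theorem exists_approx_zero {n : ℕ} (p : Fin n → MvPolynomial (Fin (n + 1)) ℝ) {ε : ℝ}
    (hε : 0 < ε) :
    ∃ x : Fin (n + 1) → ℝ, ∑ i, x i ^ 2 = 1 ∧ ∀ k, |(eval x (p k) - eval (-x) (p k)) / 2| ≤ ε := by
  set D := Finset.univ.sup fun k => (p k).totalDegree with hD
  set d := 2 * D + 1 with hd
  have hdodd : Odd d := ⟨D, hd⟩
  have hpd : ∀ k, (p k).totalDegree ≤ d := fun k => by
    have : (p k).totalDegree ≤ D :=
      Finset.le_sup (f := fun k => (p k).totalDegree) (Finset.mem_univ k)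
    omega
  let q : Fin (n + 1) → MvPolynomial (Fin n) ℝ := Fin.cons 1 X
  have hq : ∀ i, (q i).totalDegree ≤ 1 := by
    intro i
    refine Fin.cases ?_ (fun j => ?_) i
    · simp [q]
    · simp [q]
  let g : Fin n → MvPolynomial (Fin n) ℝ := fun k => aeval q (homOdd (n + 1) d (p k))
  have hg : ∀ k, (g k).totalDegree ≤ d := fun k =>
    (totalDegree_aeval_le hq _).trans (isHomogeneous_homOdd hdodd _).totalDegree_le
  obtain ⟨C, hC, hsol⟩ := exists_countable_solution hdodd hg
  obtain ⟨δ, hδ1, hδ2⟩ : ∃ δ, ε⁻¹ < δ ∧ δ ∉ C := by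
    obtain ⟨δ, hδ, hδC⟩ := (hC.dense_compl ℝ).exists_gt ε⁻¹
    exact ⟨δ, hδC, hδ⟩
  have hδ0 : 0 < δ := lt_trans (inv_pos.2 hε) hδ1
  obtain ⟨c, hc⟩ := hsol δ hδ2
  let x : Fin (n + 1) → ℝ := Fin.cons 1 c
  have hxg : ∀ k, eval c (g k) = eval x (homOdd (n + 1) d (p k)) := by
    intro k
    have h1 : ∀ P : MvPolynomial (Fin (n + 1)) ℝ, eval c (aeval q P) = eval x P := by
      intro P
      induction P using MvPolynomial.induction_on with
      | C r => simp
      | add p q hp hq => rw [map_add, map_add, map_add, hp, hq]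
      | mul_X p i hp =>
        rw [map_mul, map_mul, map_mul, hp, aeval_X, eval_X]
        congr 1
        refine Fin.cases ?_ (fun j => ?_) i
        · simp [q, x]
        · simp [q, x]
    exact h1 _
  set N := ∑ i, x i ^ 2 with hN
  have hN1 : 1 + ∑ i, c i ^ 2 = N := by
    rw [hN, Fin.sum_univ_succ]; simp [x]
  have hc0 : 0 ≤ ∑ i, c i ^ 2 := Finset.sum_nonneg fun i _ => sq_nonneg _
  have hNpos : 0 < N := by linarith
  set t := (Real.sqrt N)⁻¹ with ht
  have hsq : Real.sqrt N ^ 2 = N := Real.sq_sqrt hNpos.le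
  have hsqpos : 0 < Real.sqrt N := Real.sqrt_pos.2 hNpos
  have htpos : 0 < t := inv_pos.2 hsqpos
  have ht2 : t ^ 2 * N = 1 := by
    rw [ht, inv_pow, hsq]; field_simp
  have hy : ∑ i, (t • x) i ^ 2 = 1 := by
    simp only [Pi.smul_apply, smul_eq_mul, mul_pow]
    rw [← Finset.mul_sum, ← hN, ht2]
  refine ⟨t • x, hy, fun k => ?_⟩
  rw [← eval_homOdd (hpd k) hy, eval_smul_of_isHomogeneous (isHomogeneous_homOdd hdodd _),
    ← hxg k]
  have h1 : eval c (g k) = - c k ^ d / δ := by
    have := hc k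
    field_simp
    linarith
  have hck : |t * c k| ≤ 1 := by
    rw [abs_le_one_iff_mul_self_le_one]
    have h2 : c k ^ 2 ≤ ∑ i, c i ^ 2 :=
      Finset.single_le_sum (f := fun i => c i ^ 2) (fun i _ => sq_nonneg _) (Finset.mem_univ k)
    have h3 : c k ^ 2 ≤ N := by linarith
    calc t * c k * (t * c k) = t ^ 2 * c k ^ 2 := by ring
      _ ≤ t ^ 2 * N := by gcongr
      _ = 1 := ht2
  rw [h1]
  have h4 : t ^ d * (- c k ^ d / δ) = - ((t * c k) ^ d / δ) := by
    rw [mul_pow]; ring
  rw [h4, abs_neg, abs_div, abs_pow, abs_of_pos hδ0]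
  calc |t * c k| ^ d / δ ≤ 1 / δ := by
        gcongr
        exact pow_le_one₀ (abs_nonneg _) hck
    _ ≤ ε := by
        rw [div_le_iff₀ hδ0]
        have : ε * ε⁻¹ = 1 := mul_inv_cancel₀ hε.ne'
        nlinarith

/-- the unit sphere for the Euclidean length -/
def sph (m : ℕ) : Set (Fin m → ℝ) := {x | ∑ i, x i ^ 2 = 1}

theorem mem_sph {m : ℕ} {x : Fin m → ℝ} : x ∈ sph m ↔ ∑ i, x i ^ 2 = 1 := Iff.rfl

theorem isCompact_sph (m : ℕ) : IsCompact (sph m) := by
  apply Metric.isCompact_of_isClosed_isBounded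
  · exact isClosed_eq (by fun_prop) continuous_const
  · refine (Metric.isBounded_closedBall (x := (0 : Fin m → ℝ)) (r := 1)).subset ?_
    intro x hx
    rw [mem_closedBall_zero_iff, pi_norm_le_iff_of_nonneg zero_le_one]
    intro i
    rw [Real.norm_eq_abs, abs_le_one_iff_mul_self_le_one, ← pow_two]
    rw [mem_sph] at hx
    rw [← hx]
    exact Finset.single_le_sum (f := fun i => x i ^ 2) (fun i _ => sq_nonneg _)
      (Finset.mem_univ i)

theorem neg_mem_sph {m : ℕ} {x : Fin m → ℝ} (hx : x ∈ sph m) : -x ∈ sph m := by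
  rw [mem_sph] at hx ⊢
  simpa using hx

theorem sph_nonempty (n : ℕ) : (sph (n + 1)).Nonempty :=
  ⟨Pi.single 0 1, by
    rw [mem_sph, Finset.sum_eq_single 0]
    · simp
    · intro b _ hb; simp [hb]
    · simp⟩

theorem exists_poly_near {m : ℕ} (f : (Fin m → ℝ) → ℝ) (hf : ContinuousOn f (sph m)) {ε : ℝ}
    (hε : 0 < ε) : ∃ p : MvPolynomial (Fin m) ℝ, ∀ x ∈ sph m, |eval x p - f x| < ε := by
  have : CompactSpace (sph m) := isCompact_iff_compactSpace.1 (isCompact_sph m)
  let co : Fin m → C(sph m, ℝ) := fun i => ⟨fun x => x.1 i, (continuous_apply i).comp continuous_subtype_val⟩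
  let A : Subalgebra ℝ C(sph m, ℝ) := (aeval (R := ℝ) co).range
  have hA : A.SeparatesPoints := by
    intro x y hxy
    have h1 : ∃ i, x.1 i ≠ y.1 i := by
      by_contra hcon
      push Not at hcon
      exact hxy (Subtype.ext (funext hcon))
    obtain ⟨i, hi⟩ := h1
    refine ⟨fun z => co i z, ⟨co i, ⟨X i, by simp⟩, rfl⟩, hi⟩
  obtain ⟨⟨g, p, hp⟩, hg⟩ :=
    ContinuousMap.exists_mem_subalgebra_near_continuous_of_separatesPoints A hA
      (fun x => f x.1) (continuousOn_iff_continuous_domRestrict.1 hf) ε hε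
  have hev : ∀ (p : MvPolynomial (Fin m) ℝ) (x : sph m), (aeval (R := ℝ) co p) x = eval x.1 p := by
    intro p x
    induction p using MvPolynomial.induction_on with
    | C r => simp
    | add p q hp hq => rw [map_add, map_add, ContinuousMap.add_apply, hp, hq]
    | mul_X p i hp => rw [map_mul, map_mul, ContinuousMap.mul_apply, hp, aeval_X, eval_X]; rfl
  refine ⟨p, fun x hx => ?_⟩
  have h1 := hg ⟨x, hx⟩
  have h2 : g ⟨x, hx⟩ = eval x p := by rw [← hev p ⟨x, hx⟩, ← hp]; rfl
  rw [← h2]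
  exact h1

/-- **Borsuk-Ulam theorem**: an odd continuous map from the sphere `S^n` to `ℝ^n` has a zero. -/
theorem borsuk_ulam {n : ℕ} (f : (Fin (n + 1) → ℝ) → (Fin n → ℝ))
    (hf : ContinuousOn f (sph (n + 1))) (hodd : ∀ x ∈ sph (n + 1), f (-x) = - f x) :
    ∃ x ∈ sph (n + 1), f x = 0 := by
  obtain ⟨x₀, hx₀, hmin⟩ := (isCompact_sph (n + 1)).exists_isMinOn (sph_nonempty n)
    (f := fun x => ‖f x‖) hf.norm
  refine ⟨x₀, hx₀, ?_⟩
  by_contra hne
  have hpos : 0 < ‖f x₀‖ := norm_pos_iff.2 hne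
  set ε := ‖f x₀‖ / 3 with hε
  have hεpos : 0 < ε := by positivity
  have hfk : ∀ k, ContinuousOn (fun x => f x k) (sph (n + 1)) := fun k =>
    (continuous_apply k).comp_continuousOn hf
  choose p hp using fun k => exists_poly_near (fun x => f x k) (hfk k) hεpos
  obtain ⟨x, hx, hxk⟩ := exists_approx_zero p hεpos
  have h1 : ‖f x‖ ≤ 2 * ε := by
    rw [pi_norm_le_iff_of_nonneg (by positivity)]
    intro k
    have h2 := hp k x hx
    have h3 := hp k (-x) (neg_mem_sph hx)
    have h4 := hxk k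
    rw [hodd x hx, Pi.neg_apply] at h3
    rw [Real.norm_eq_abs, abs_le]
    rw [abs_lt] at h2 h3
    rw [abs_le] at h4
    constructor <;> linarith [h2.1, h2.2, h3.1, h3.2, h4.1, h4.2]
  have h2 : ‖f x₀‖ ≤ ‖f x‖ := hmin hx
  linarith

/-- **Borsuk-Ulam theorem** for general spaces: an odd map `V → W`, continuous on nonzero vectors,
with `dim W < dim V`, vanishes at some nonzero vector. -/
theorem exists_zero_of_odd {V W : Type*} [NormedAddCommGroup V] [NormedSpace ℝ V]
    [FiniteDimensional ℝ V] [NormedAddCommGroup W] [NormedSpace ℝ W] [FiniteDimensional ℝ W]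
    (hVW : finrank ℝ W < finrank ℝ V) (f : V → W) (hf : ContinuousOn f {0}ᶜ)
    (hodd : ∀ v, v ≠ 0 → f (-v) = - f v) : ∃ v, v ≠ 0 ∧ f v = 0 := by
  obtain ⟨n, hn⟩ : ∃ n, finrank ℝ V = n + 1 := ⟨finrank ℝ V - 1, by omega⟩
  let e : V ≃L[ℝ] (Fin (n + 1) → ℝ) := ContinuousLinearEquiv.ofFinrankEq (by simp [hn])
  obtain ⟨ι, hι⟩ : ∃ ι : W →L[ℝ] (Fin n → ℝ), Function.Injective ι := by
    have hW : finrank ℝ W ≤ n := by omega
    let b := Module.finBasis ℝ W
    let ι : W →ₗ[ℝ] (Fin n → ℝ) :=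
      { toFun := fun w k => if h : k.1 < finrank ℝ W then b.repr w ⟨k.1, h⟩ else 0
        map_add' := fun v w => by
          funext k
          by_cases h : k.1 < finrank ℝ W <;> simp [h]
        map_smul' := fun r w => by
          funext k
          by_cases h : k.1 < finrank ℝ W <;> simp [h] }
    refine ⟨LinearMap.toContinuousLinearMap ι, ?_⟩
    change Function.Injective ι
    rw [← LinearMap.ker_eq_bot, LinearMap.ker_eq_bot']
    intro w hw
    apply b.repr.injective
    ext k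
    have h1 := congrFun hw ⟨k.1, lt_of_lt_of_le k.2 hW⟩
    simpa [ι] using h1
  obtain ⟨x, hx, hfx⟩ := borsuk_ulam (fun x => ι (f (e.symm x))) (by
      refine ι.continuous.comp_continuousOn (hf.comp e.symm.continuous.continuousOn ?_)
      intro x hx hcon
      have h0 : x = 0 := by
        have : e.symm x = 0 := hcon
        simpa using this
      rw [mem_sph, h0] at hx
      simp at hx) (by
      intro x hx
      have h1 : e.symm x ≠ 0 := by
        intro hcon
        have h0 : x = 0 := by simpa using hcon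
        rw [mem_sph, h0] at hx
        simp at hx
      change ι (f (e.symm (-x))) = - ι (f (e.symm x))
      rw [map_neg, hodd _ h1, map_neg])
  refine ⟨e.symm x, ?_, ?_⟩
  · intro hcon
    have h0 : x = 0 := by simpa using hcon
    rw [mem_sph, h0] at hx
    simp at hx
  · apply hι
    rw [map_zero]
    exact hfx

end Pool.Agent.Lib.BorsukUlam
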