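import Mathlib

/-! A commuting family of endomorphisms of an odd-dimensional real vector space has a common
eigenvector. -/

open Module Polynomial Filter

namespace Pool.Agent.Lib.BorsukUlam

theorem exists_root_of_odd {p : ℝ[X]} (hp : Odd p.natDegree) : ∃ x, p.IsRoot x := by
  wlog hlc : 0 ≤ p.leadingCoeff with H
  · obtain ⟨x, hx⟩ := H (p := -p) (by simpa using hp) (by
      rw [leadingCoeff_neg]; linarith)
    exact ⟨x, by simpa [IsRoot] using hx⟩
  have hdeg : 0 < p.degree := by
    rw [← natDegree_pos_iff_degree_pos]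
    exact hp.pos
  have h1 : Tendsto (fun x => p.eval x) atTop atTop :=
    p.tendsto_atTop_of_leadingCoeff_nonneg hdeg hlc
  have h2 : Tendsto (fun x => (-(p.comp (-X))).eval x) atTop atTop := by
    refine tendsto_atTop_of_leadingCoeff_nonneg _ ?_ ?_
    · rw [degree_neg, ← natDegree_pos_iff_degree_pos, natDegree_comp]
      simpa using hp.pos
    · rw [leadingCoeff_neg, leadingCoeff_comp (by simp)]
      simp [hp.neg_one_pow, hlc]
  obtain ⟨a, ha⟩ := (h1.eventually_ge_atTop 0).exists
  obtain ⟨b, hb⟩ := (h2.eventually_ge_atTop 0).exists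
  have hb' : p.eval (-b) ≤ 0 := by
    simp only [eval_neg, eval_comp, eval_X] at hb
    linarith
  have hc : Continuous fun x => p.eval x := p.continuous
  obtain ⟨x, hx⟩ := mem_range_of_exists_le_of_exists_ge hc ⟨-b, hb'⟩ ⟨a, ha⟩
  exact ⟨x, hx⟩

universe u v

theorem exists_eigenvalue_of_odd {V : Type u} [AddCommGroup V] [Module ℝ V] [FiniteDimensional ℝ V]
    (hV : Odd (finrank ℝ V)) (f : End ℝ V) : ∃ μ : ℝ, f.HasEigenvalue μ := by
  obtain ⟨μ, hμ⟩ := exists_root_of_odd (p := LinearMap.charpoly f)
    (by rw [LinearMap.charpoly_natDegree]; exact hV)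
  exact ⟨μ, (Module.End.hasEigenvalue_iff_isRoot_charpoly f μ).2 hμ⟩

theorem exists_common_eigenvector_aux {ι : Type v} (N : ℕ) :
    ∀ (V : Type u) [AddCommGroup V] [Module ℝ V] [FiniteDimensional ℝ V], finrank ℝ V = N →
      Odd N → ∀ (f : ι → End ℝ V), (∀ i j, Commute (f i) (f j)) →
        ∃ v : V, v ≠ 0 ∧ ∀ i, ∃ μ : ℝ, f i v = μ • v := by
  induction N using Nat.strong_induction_on with
  | _ N ih =>
    intro V _ _ _ hN hodd f hf
    by_cases h : ∀ i, ∃ μ : ℝ, f i = μ • (1 : End ℝ V)
    · have : Nontrivial V := by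
        apply Module.nontrivial_of_finrank_pos (R := ℝ)
        rw [hN]; exact hodd.pos
      obtain ⟨v, hv⟩ := exists_ne (0 : V)
      refine ⟨v, hv, fun i => ?_⟩
      obtain ⟨μ, hμ⟩ := h i
      exact ⟨μ, by rw [hμ]; rfl⟩
    · push Not at h
      obtain ⟨i₀, hi₀⟩ := h
      obtain ⟨μ, hμ⟩ := exists_eigenvalue_of_odd (by rw [hN]; exact hodd) (f i₀)
      set g : End ℝ V := f i₀ - μ • 1 with hg
      have hgc : ∀ j, Commute g (f j) := fun j => by
        rw [hg]
        exact (hf i₀ j).sub_left ((Commute.one_left (f j)).smul_left μ)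
      have hsum := LinearMap.finrank_range_add_finrank_ker g
      have hker : 0 < finrank ℝ (LinearMap.ker g) := by
        obtain ⟨v, hv⟩ := hμ.exists_hasEigenvector
        have hv' : v ∈ LinearMap.ker g := by
          rw [LinearMap.mem_ker, hg]
          simp only [LinearMap.sub_apply, LinearMap.smul_apply, Module.End.one_apply]
          rw [hv.apply_eq_smul, sub_self]
        have : Nontrivial (LinearMap.ker g) :=
          ⟨⟨⟨v, hv'⟩, 0, fun hcon => hv.2 (by simpa using congrArg Subtype.val hcon)⟩⟩
        exact finrank_pos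
      have hran : 0 < finrank ℝ (LinearMap.range g) := by
        have hg0 : g ≠ 0 := fun hcon => hi₀ μ (sub_eq_zero.1 hcon)
        have : LinearMap.range g ≠ ⊥ := by
          rwa [Ne, LinearMap.range_eq_bot]
        have : Nontrivial (LinearMap.range g) := (Submodule.nontrivial_iff_ne_bot).2 this
        exact finrank_pos
      -- a general descent step
      have key : ∀ K : Submodule ℝ V, finrank ℝ K < N → Odd (finrank ℝ K) →
          (∀ i, ∀ v ∈ K, f i v ∈ K) → ∃ v : V, v ≠ 0 ∧ ∀ i, ∃ μ : ℝ, f i v = μ • v := by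
        intro K hK hKodd hinv
        obtain ⟨v, hv0, hv⟩ := ih (finrank ℝ K) hK K rfl hKodd
          (fun i => (f i).restrict (hinv i)) (fun i j => by
            ext v
            have := LinearMap.congr_fun (hf i j).eq (v : V)
            simpa using this)
        refine ⟨v, fun hcon => hv0 (Subtype.ext hcon), fun i => ?_⟩
        obtain ⟨μ, hμ⟩ := hv i
        exact ⟨μ, congrArg Subtype.val hμ⟩
      rw [hN] at hsum
      have hpar : Odd (finrank ℝ (LinearMap.ker g)) ∨ Odd (finrank ℝ (LinearMap.range g)) := by
        rcases Nat.even_or_odd (finrank ℝ (LinearMap.ker g)) with he | ho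
        · rcases Nat.even_or_odd (finrank ℝ (LinearMap.range g)) with he' | ho'
          · exfalso
            have := he'.add he
            rw [hsum] at this
            exact (Nat.not_even_iff_odd.2 hodd) this
          · exact Or.inr ho'
        · exact Or.inl ho
      rcases hpar with ho | ho
      · refine key (LinearMap.ker g) (by omega) ho fun i v hv => ?_
        rw [LinearMap.mem_ker] at hv ⊢
        have := LinearMap.congr_fun (hgc i).eq v
        simp only [Module.End.mul_apply] at this
        rw [this, hv, map_zero]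
      · refine key (LinearMap.range g) (by omega) ho fun i v hv => ?_
        obtain ⟨w, rfl⟩ := hv
        have := LinearMap.congr_fun (hgc i).eq w
        simp only [Module.End.mul_apply] at this
        exact ⟨f i w, this⟩

/-- A commuting family of endomorphisms of an odd-dimensional real vector space has a common
eigenvector. -/
theorem exists_common_eigenvector {ι : Type v} {V : Type u} [AddCommGroup V] [Module ℝ V]
    [FiniteDimensional ℝ V] (hV : Odd (finrank ℝ V)) (f : ι → End ℝ V)
    (hf : ∀ i j, Commute (f i) (f j)) : ∃ v : V, v ≠ 0 ∧ ∀ i, ∃ μ : ℝ, f i v = μ • v :=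
  exists_common_eigenvector_aux _ V rfl hV f hf

/-- An odd-dimensional commutative real algebra: elements `x i` have a common real eigenvector. -/
theorem exists_real_point {ι : Type v} {A : Type u} [CommRing A] [Algebra ℝ A]
    [FiniteDimensional ℝ A] (hA : Odd (finrank ℝ A)) (x : ι → A) :
    ∃ (c : ι → ℝ) (a : A), a ≠ 0 ∧ ∀ i, x i * a = c i • a := by
  obtain ⟨a, ha, h⟩ := exists_common_eigenvector hA (fun i => LinearMap.mulLeft ℝ (x i))
    (fun i j => by
      ext a
      simp [mul_left_comm])
  choose c hc using h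
  exact ⟨c, a, ha, fun i => hc i⟩

end Pool.Agent.Lib.BorsukUlam
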