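import Pool.Agent.Lib.BorsukUlam.Eigen

/-! Real solutions of systems `xᵢ^d + δ gᵢ(x) = 0`, `d` odd, `deg gᵢ ≤ d`, for all but countably many `δ`. -/

open MvPolynomial Module Finset

namespace Pool.Agent.Lib.BorsukUlam

/-- `1 + δ E` is bijective for all but countably many `δ`, if `E` preserves an exhaustion by
finite-dimensional subspaces. -/
theorem exists_countable_bad {V : Type*} [AddCommGroup V] [Module ℝ V] (E : End ℝ V)
    (W : ℕ → Submodule ℝ V) (hfin : ∀ j, FiniteDimensional ℝ (W j))
    (hinv : ∀ j, ∀ v ∈ W j, E v ∈ W j) (htop : ∀ v, ∃ j, v ∈ W j) :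
    ∃ C : Set ℝ, C.Countable ∧ ∀ δ ∉ C, Function.Bijective (fun v => v + δ • E v) := by
  let C : Set ℝ := ⋃ j, {δ | -(δ⁻¹) ∈ spectrum ℝ (E.restrict (hinv j) : End ℝ (W j))}
  refine ⟨C, ?_, ?_⟩
  · refine Set.countable_iUnion fun j => Set.Finite.countable ?_
    have := hfin j
    have h := Module.End.finite_spectrum (E.restrict (hinv j) : End ℝ (W j))
    refine Set.Finite.preimage ?_ h
    intro a _ b _ hab
    simpa using hab
  · intro δ hδ
    by_cases h0 : δ = 0
    · subst h0
      simp only [zero_smul, add_zero]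
      exact Function.bijective_id
    have hinj : ∀ v, v + δ • E v = 0 → v = 0 := by
      intro v hv
      by_contra hv0
      obtain ⟨j, hj⟩ := htop v
      apply hδ
      refine Set.mem_iUnion.2 ⟨j, ?_⟩
      have : Module.End.HasEigenvalue (E.restrict (hinv j) : End ℝ (W j)) (-(δ⁻¹)) := by
        refine Module.End.hasEigenvalue_of_hasEigenvector (x := ⟨v, hj⟩) ⟨?_, ?_⟩
        · rw [Module.End.mem_eigenspace_iff]
          ext
          simp only [LinearMap.coe_restrict_apply, SetLike.val_smul]
          have h1 : δ • E v = -v := by rw [add_comm] at hv; exact eq_neg_of_add_eq_zero_left hv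
          have h2 : E v = δ⁻¹ • (δ • E v) := by rw [smul_smul, inv_mul_cancel₀ h0, one_smul]
          rw [h2, h1, smul_neg, neg_smul]
        · intro hcon
          exact hv0 (by simpa using congrArg Subtype.val hcon)
      exact this.mem_spectrum
    constructor
    · intro v w hvw
      have h1 : (v - w) + δ • E (v - w) = 0 := by
        rw [map_sub, smul_sub]
        have : v - w + (δ • E v - δ • E w) = (v + δ • E v) - (w + δ • E w) := by abel
        rw [this]
        exact sub_eq_zero.2 hvw
      exact sub_eq_zero.1 (hinj _ h1)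
    · intro w
      obtain ⟨j, hj⟩ := htop w
      have := hfin j
      let T : W j →ₗ[ℝ] W j := LinearMap.id + δ • (E.restrict (hinv j))
      have hTi : Function.Injective T := by
        rw [← LinearMap.ker_eq_bot, LinearMap.ker_eq_bot']
        intro v hv
        have h1 := congrArg Subtype.val hv
        simp only [T, LinearMap.add_apply, LinearMap.id_apply, LinearMap.smul_apply,
          Submodule.coe_add, Submodule.coe_smul, LinearMap.coe_restrict_apply,
          ZeroMemClass.coe_zero] at h1
        exact Subtype.ext (hinj _ h1)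
      obtain ⟨v, hv⟩ := LinearMap.surjective_of_injective hTi ⟨w, hj⟩
      refine ⟨v, ?_⟩
      have h1 := congrArg Subtype.val hv
      simpa [T] using h1

variable {n : ℕ}

/-- the variables of index `< i` whose exponent is at least `d`. -/
def bigVars (i d : ℕ) (a : Fin n →₀ ℕ) : Finset (Fin n) := {k | k.1 < i ∧ d ≤ a k}

theorem mem_bigVars {i d : ℕ} {a : Fin n →₀ ℕ} {k : Fin n} :
    k ∈ bigVars i d a ↔ k.1 < i ∧ d ≤ a k := by
  simp [bigVars]

/-- the operator replacing `x_k^d` by `g_k`. -/
noncomputable def opE (d : ℕ) (g : Fin n → MvPolynomial (Fin n) ℝ) (i : ℕ) :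
    MvPolynomial (Fin n) ℝ →ₗ[ℝ] MvPolynomial (Fin n) ℝ :=
  (basisMonomials (Fin n) ℝ).constr ℝ fun a =>
    if h : (bigVars i d a).Nonempty then
      g ((bigVars i d a).min' h) * monomial (a - Finsupp.single ((bigVars i d a).min' h) d) 1
    else 0

theorem opE_of_nonempty {d : ℕ} {g : Fin n → MvPolynomial (Fin n) ℝ} {i : ℕ} {a : Fin n →₀ ℕ}
    (h : (bigVars i d a).Nonempty) : opE d g i (monomial a 1) =
      g ((bigVars i d a).min' h) * monomial (a - Finsupp.single ((bigVars i d a).min' h) d) 1 := by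
  unfold opE
  have h1 : (monomial a 1 : MvPolynomial (Fin n) ℝ) = basisMonomials (Fin n) ℝ a := by
    rw [coe_basisMonomials]
  rw [h1, Basis.constr_basis, dif_pos h]

theorem opE_of_empty {d : ℕ} {g : Fin n → MvPolynomial (Fin n) ℝ} {i : ℕ} {a : Fin n →₀ ℕ}
    (h : ¬ (bigVars i d a).Nonempty) : opE d g i (monomial a 1) = 0 := by
  unfold opE
  have h1 : (monomial a 1 : MvPolynomial (Fin n) ℝ) = basisMonomials (Fin n) ℝ a := by
    rw [coe_basisMonomials]
  rw [h1, Basis.constr_basis, dif_neg h]

/-- the deformed equations. -/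
noncomputable def eqF (d : ℕ) (g : Fin n → MvPolynomial (Fin n) ℝ) (δ : ℝ) (k : Fin n) :
    MvPolynomial (Fin n) ℝ := X k ^ d + δ • g k

/-- the operator replacing `x_k^d` by the equation `F_k`. -/
noncomputable def opT (d : ℕ) (g : Fin n → MvPolynomial (Fin n) ℝ) (δ : ℝ) (i : ℕ) :
    MvPolynomial (Fin n) ℝ →ₗ[ℝ] MvPolynomial (Fin n) ℝ := LinearMap.id + δ • opE d g i

theorem opT_of_nonempty {d : ℕ} {g : Fin n → MvPolynomial (Fin n) ℝ} {δ : ℝ} {i : ℕ}
    {a : Fin n →₀ ℕ} (h : (bigVars i d a).Nonempty) : opT d g δ i (monomial a 1) =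
      eqF d g δ ((bigVars i d a).min' h) *
        monomial (a - Finsupp.single ((bigVars i d a).min' h) d) 1 := by
  set k := (bigVars i d a).min' h with hk
  have hkd : d ≤ a k := (mem_bigVars.1 (Finset.min'_mem _ h)).2
  have hle : Finsupp.single k d ≤ a := by
    rw [Finsupp.single_le_iff]; exact hkd
  have h1 : (monomial a 1 : MvPolynomial (Fin n) ℝ)
      = X k ^ d * monomial (a - Finsupp.single k d) 1 := by
    rw [X_pow_eq_monomial, monomial_mul, one_mul, add_tsub_cancel_of_le hle]
  unfold opT eqF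
  rw [LinearMap.add_apply, LinearMap.id_apply, LinearMap.smul_apply, opE_of_nonempty h, ← hk,
    add_mul, ← h1, smul_mul_assoc]

theorem opT_of_empty {d : ℕ} {g : Fin n → MvPolynomial (Fin n) ℝ} {δ : ℝ} {i : ℕ}
    {a : Fin n →₀ ℕ} (h : ¬ (bigVars i d a).Nonempty) :
    opT d g δ i (monomial a 1) = monomial a 1 := by
  unfold opT
  rw [LinearMap.add_apply, LinearMap.id_apply, LinearMap.smul_apply, opE_of_empty h, smul_zero,
    add_zero]

theorem linear_induction {S : Submodule ℝ (MvPolynomial (Fin n) ℝ)}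
    (φ : MvPolynomial (Fin n) ℝ →ₗ[ℝ] MvPolynomial (Fin n) ℝ)
    (h : ∀ a : Fin n →₀ ℕ, φ (monomial a 1) ∈ S) (p : MvPolynomial (Fin n) ℝ) : φ p ∈ S := by
  induction p using MvPolynomial.induction_on' with
  | monomial a c =>
    have : (monomial a c : MvPolynomial (Fin n) ℝ) = c • monomial a 1 := by
      rw [smul_monomial, smul_eq_mul, mul_one]
    rw [this, map_smul]
    exact S.smul_mem _ (h a)
  | add p q hp hq => rw [map_add]; exact S.add_mem hp hq

/-- exponents with a big variable of index `< i`. -/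
def bigExp (n i d : ℕ) : Set (Fin n →₀ ℕ) := {a | (bigVars i d a).Nonempty}

theorem opT_mono_mem {d : ℕ} {g : Fin n → MvPolynomial (Fin n) ℝ} {δ : ℝ} {i : ℕ}
    {a : Fin n →₀ ℕ} (ha : a ∈ bigExp n i d) :
    opT d g δ i (monomial a 1) ∈ (restrictSupport ℝ (bigExp n i d)).map (opT d g δ i) :=
  Submodule.mem_map_of_mem ((monomial_mem_restrictSupport ℝ).2 (Or.inl ha))

theorem map_opT_mono {d : ℕ} {g : Fin n → MvPolynomial (Fin n) ℝ} {δ : ℝ} (i : ℕ) :
    (restrictSupport ℝ (bigExp n i d)).map (opT d g δ i) ≤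
      (restrictSupport ℝ (bigExp n (i + 1) d)).map (opT d g δ (i + 1)) := by
  rw [restrictSupport_eq_span, Submodule.map_span, Submodule.span_le]
  rintro _ ⟨_, ⟨a, ha, rfl⟩, rfl⟩
  have ha' : (bigVars i d a).Nonempty := ha
  have hsub : bigVars i d a ⊆ bigVars (i + 1) d a := by
    intro k hk
    rw [mem_bigVars] at hk ⊢
    exact ⟨by omega, hk.2⟩
  have ha1 : (bigVars (i + 1) d a).Nonempty := ha'.mono hsub
  have hmin : (bigVars (i + 1) d a).min' ha1 = (bigVars i d a).min' ha' := by
    apply le_antisymm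
    · exact Finset.min'_subset _ hsub
    · have h1 := Finset.min'_mem _ ha1
      have h2 := Finset.min'_mem _ ha'
      rw [mem_bigVars] at h1 h2
      by_cases hlt : ((bigVars (i + 1) d a).min' ha1).1 < i
      · exact Finset.min'_le _ _ (mem_bigVars.2 ⟨hlt, h1.2⟩)
      · have h3 : (bigVars i d a).min' ha' ≤ (bigVars (i + 1) d a).min' ha1 := by
          rw [Fin.le_def]; omega
        exact h3
  have heq : opT d g δ i (monomial a 1) = opT d g δ (i + 1) (monomial a 1) := by
    rw [opT_of_nonempty ha', opT_of_nonempty ha1, hmin]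
  rw [SetLike.mem_coe, heq]
  exact opT_mono_mem ha1

/-- **Key step**: the ideal of the equations is the image of the span of the big monomials. -/
theorem mul_mem_map {d : ℕ} {g : Fin n → MvPolynomial (Fin n) ℝ} {δ : ℝ}
    (hsurj : ∀ i, i ≤ n → Function.Surjective (opT d g δ i)) (i : ℕ) (hi : i ≤ n) :
    ∀ k : Fin n, k.1 < i → ∀ q : MvPolynomial (Fin n) ℝ,
      eqF d g δ k * q ∈ (restrictSupport ℝ (bigExp n i d)).map (opT d g δ i) := by
  induction i with
  | zero => intro k hk; omega
  | succ i ih =>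
    intro k hk q
    rcases Nat.lt_succ_iff_lt_or_eq.1 hk with hlt | heq
    · exact map_opT_mono i (ih (by omega) k hlt q)
    · obtain ⟨u, rfl⟩ := hsurj i (by omega) q
      refine linear_induction ((LinearMap.mulLeft ℝ (eqF d g δ k)) ∘ₗ opT d g δ i) ?_ u
      intro a
      change eqF d g δ k * opT d g δ i (monomial a 1) ∈ _
      by_cases ha : (bigVars i d a).Nonempty
      · rw [opT_of_nonempty ha, mul_left_comm]
        exact map_opT_mono i (ih (by omega) _ (mem_bigVars.1 (Finset.min'_mem _ ha)).1 _)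
      · rw [opT_of_empty ha]
        have hk' : k ∈ bigVars (i + 1) d (a + Finsupp.single k d) := by
          rw [mem_bigVars]
          refine ⟨hk, ?_⟩
          simp
        have hne : (bigVars (i + 1) d (a + Finsupp.single k d)).Nonempty := ⟨k, hk'⟩
        have hmin : (bigVars (i + 1) d (a + Finsupp.single k d)).min' hne = k := by
          apply le_antisymm
          · exact Finset.min'_le _ _ hk'
          · by_contra hcon
            push Not at hcon
            have h1 := Finset.min'_mem _ hne
            set l := (bigVars (i + 1) d (a + Finsupp.single k d)).min' hne with hl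
            rw [mem_bigVars] at h1
            have hlk : l.1 < k.1 := hcon
            apply ha
            refine ⟨l, mem_bigVars.2 ⟨by omega, ?_⟩⟩
            have h2 := h1.2
            rw [Finsupp.add_apply, Finsupp.single_eq_of_ne (by
              intro h; rw [h] at hlk; exact lt_irrefl _ hlk), add_zero] at h2
            exact h2
        have h3 := opT_mono_mem (g := g) (δ := δ) (i := i + 1) (d := d)
          (a := a + Finsupp.single k d) hne
        rw [opT_of_nonempty hne, hmin, add_tsub_cancel_right] at h3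
        exact h3

theorem totalDegree_opE_le {d : ℕ} {g : Fin n → MvPolynomial (Fin n) ℝ}
    (hg : ∀ k, (g k).totalDegree ≤ d) (i j : ℕ) :
    ∀ v ∈ restrictTotalDegree (Fin n) ℝ j, opE d g i v ∈ restrictTotalDegree (Fin n) ℝ j := by
  intro v hv
  have h1 : restrictTotalDegree (Fin n) ℝ j ≤
      (restrictTotalDegree (Fin n) ℝ j).comap (opE d g i) := by
    have h0 : restrictTotalDegree (Fin n) ℝ j = restrictSupport ℝ {s | (s.sum fun _ e => e) ≤ j} :=
      rfl
    conv_lhs => rw [h0]
    rw [restrictSupport_eq_span, Submodule.span_le]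
    rintro _ ⟨a, ha, rfl⟩
    rw [SetLike.mem_coe, Submodule.mem_comap, mem_restrictTotalDegree]
    change (opE d g i (monomial a 1)).totalDegree ≤ j
    have ha' : (a.sum fun _ e => e) ≤ j := ha
    by_cases h : (bigVars i d a).Nonempty
    · rw [opE_of_nonempty h]
      set k := (bigVars i d a).min' h with hk
      have hkd : d ≤ a k := (mem_bigVars.1 (Finset.min'_mem _ h)).2
      have hle : Finsupp.single k d ≤ a := by
        rw [Finsupp.single_le_iff]; exact hkd
      have h2 : (a.sum fun _ e => e) = ((a - Finsupp.single k d).sum fun _ e => e) + d := by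
        conv_lhs => rw [← tsub_add_cancel_of_le hle]
        rw [Finsupp.sum_add_index' (fun _ => rfl) (fun _ _ _ => rfl),
          Finsupp.sum_single_index rfl]
      refine (totalDegree_mul _ _).trans ?_
      have h3 := hg k
      have h4 : (monomial (a - Finsupp.single k d) (1 : ℝ)).totalDegree
          = (a - Finsupp.single k d).sum fun _ e => e := totalDegree_monomial _ one_ne_zero
      omega
    · rw [opE_of_empty h]; simp
  exact h1 hv

theorem exists_bad_opT {d : ℕ} {g : Fin n → MvPolynomial (Fin n) ℝ}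
    (hg : ∀ k, (g k).totalDegree ≤ d) (i : ℕ) :
    ∃ C : Set ℝ, C.Countable ∧ ∀ δ ∉ C, Function.Bijective (opT d g δ i) := by
  obtain ⟨C, hC, h⟩ := exists_countable_bad (opE d g i)
    (fun j => restrictTotalDegree (Fin n) ℝ j) (fun j => inferInstance)
    (totalDegree_opE_le hg i) (fun v => ⟨v.totalDegree, by rw [mem_restrictTotalDegree]⟩)
  exact ⟨C, hC, fun δ hδ => h δ hδ⟩

/-- exponents with all entries `< d`. -/
def smallExp (n d : ℕ) : Set (Fin n →₀ ℕ) := {a | ∀ k, a k < d}

theorem smallExp_compl {d : ℕ} : (bigExp n n d)ᶜ = smallExp n d := by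
  ext a
  simp only [bigExp, smallExp, Set.mem_compl_iff, Set.mem_ofPred_eq, Finset.Nonempty, mem_bigVars,
    not_exists, not_and, not_le]
  exact ⟨fun h k => h k k.2, fun h k _ => h k⟩

theorem mem_smallExp_iff {d : ℕ} {a : Fin n →₀ ℕ} : a ∈ smallExp n d ↔ a ∉ bigExp n n d := by
  rw [← smallExp_compl]; rfl

theorem card_smallExp (n d : ℕ) : Nat.card (smallExp n d) = d ^ n := by
  have e : smallExp n d ≃ (Fin n → Fin d) :=
    { toFun := fun a k => ⟨a.1 k, a.2 k⟩
      invFun := fun f => ⟨Finsupp.equivFunOnFinite.symm fun k => (f k).1, fun k => (f k).2⟩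
      left_inv := fun a => by ext k; rfl
      right_inv := fun f => by ext k; rfl }
  rw [Nat.card_congr e]
  simp

theorem finite_smallExp (n d : ℕ) : Finite (smallExp n d) := by
  have e : smallExp n d ↪ (Fin n → Fin d) :=
    { toFun := fun a k => ⟨a.1 k, a.2 k⟩
      inj' := fun a b hab => by
        ext k
        have := congrFun hab k
        simpa using congrArg Fin.val this }
  exact Finite.of_injective e e.injective

theorem finrank_quot {d : ℕ} {g : Fin n → MvPolynomial (Fin n) ℝ} {δ : ℝ}
    (hbij : ∀ i, i ≤ n → Function.Bijective (opT d g δ i)) :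
    FiniteDimensional ℝ (MvPolynomial (Fin n) ℝ ⧸ Ideal.span (Set.range (eqF d g δ))) ∧
    finrank ℝ (MvPolynomial (Fin n) ℝ ⧸ Ideal.span (Set.range (eqF d g δ))) = d ^ n := by
  classical
  set I := Ideal.span (Set.range (eqF d g δ)) with hI
  have hIB : ∀ p, p ∈ I ↔ p ∈ (restrictSupport ℝ (bigExp n n d)).map (opT d g δ n) := by
    intro p
    constructor
    · intro hp
      rw [hI, Ideal.mem_span_range_iff_exists_fun] at hp
      obtain ⟨c, rfl⟩ := hp
      refine Submodule.sum_mem _ fun k _ => ?_
      rw [mul_comm]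
      exact mul_mem_map (fun i hi => (hbij i hi).2) n le_rfl k k.2 _
    · intro hp
      have h1 : (restrictSupport ℝ (bigExp n n d)).map (opT d g δ n) ≤ I.restrictScalars ℝ := by
        rw [restrictSupport_eq_span, Submodule.map_span, Submodule.span_le]
        rintro _ ⟨_, ⟨a, ha, rfl⟩, rfl⟩
        have ha' : (bigVars n d a).Nonempty := ha
        change opT d g δ n (monomial a 1) ∈ I
        rw [opT_of_nonempty ha']
        exact Ideal.mul_mem_right _ _ (Ideal.subset_span ⟨_, rfl⟩)
      exact h1 hp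
  let φ : restrictSupport ℝ (smallExp n d) →ₗ[ℝ] (MvPolynomial (Fin n) ℝ ⧸ I) :=
    (Ideal.Quotient.mkₐ ℝ I).toLinearMap ∘ₗ opT d g δ n ∘ₗ (restrictSupport ℝ (smallExp n d)).subtype
  have hφ : ∀ v, φ v = Ideal.Quotient.mk I (opT d g δ n v) := fun v => rfl
  have hinj : Function.Injective φ := by
    rw [← LinearMap.ker_eq_bot, LinearMap.ker_eq_bot']
    intro v hv
    rw [hφ, Ideal.Quotient.eq_zero_iff_mem, hIB] at hv
    obtain ⟨w, hw, hwv⟩ := hv
    have h1 : w = v := (hbij n le_rfl).1 hwv
    have h2 : (v : MvPolynomial (Fin n) ℝ) ∈ restrictSupport ℝ (bigExp n n d) := h1 ▸ hw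
    have h3 := v.2
    rw [mem_restrictSupport_iff] at h2 h3
    ext a
    simp only [ZeroMemClass.coe_zero, coeff_zero]
    by_contra hcon
    have h4 : a ∈ (v : MvPolynomial (Fin n) ℝ).support := mem_support_iff.2 hcon
    exact mem_smallExp_iff.1 (h3 h4) (h2 h4)
  have hsurj : Function.Surjective φ := by
    intro y
    obtain ⟨p, rfl⟩ := Ideal.Quotient.mk_surjective y
    obtain ⟨q, rfl⟩ := (hbij n le_rfl).2 p
    have h1 : ∃ v ∈ restrictSupport ℝ (smallExp n d), ∃ w ∈ restrictSupport ℝ (bigExp n n d),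
        v + w = q := by
      rw [← Submodule.mem_sup]
      have : restrictSupport ℝ (smallExp n d) ⊔ restrictSupport ℝ (bigExp n n d) = ⊤ := by
        rw [eq_top_iff]
        intro q _
        induction q using MvPolynomial.induction_on' with
        | monomial a c =>
          by_cases ha : a ∈ bigExp n n d
          · exact Submodule.mem_sup_right ((monomial_mem_restrictSupport ℝ).2 (Or.inl ha))
          · exact Submodule.mem_sup_left
              ((monomial_mem_restrictSupport ℝ).2 (Or.inl (mem_smallExp_iff.2 ha)))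
        | add p q hp hq => exact Submodule.add_mem _ (hp trivial) (hq trivial)
      rw [this]; trivial
    obtain ⟨v, hv, w, hw, rfl⟩ := h1
    refine ⟨⟨v, hv⟩, ?_⟩
    rw [hφ, map_add, map_add]
    have : Ideal.Quotient.mk I (opT d g δ n w) = 0 := by
      rw [Ideal.Quotient.eq_zero_iff_mem, hIB]
      exact Submodule.mem_map_of_mem hw
    rw [this, add_zero]
  let e := LinearEquiv.ofBijective φ ⟨hinj, hsurj⟩
  have hfin := finite_smallExp n d
  have hN : Module.Finite ℝ (restrictSupport ℝ (smallExp n d)) :=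
    Module.Finite.of_basis (basisRestrictSupport ℝ (smallExp n d))
  refine ⟨Module.Finite.equiv e, ?_⟩
  rw [← e.finrank_eq, Module.finrank_eq_nat_card_basis (basisRestrictSupport ℝ (smallExp n d)),
    card_smallExp]

/-- For `d` odd and `deg gₖ ≤ d`, the system `xₖ^d + δ gₖ(x) = 0` has a real solution for all but
countably many `δ`. -/
theorem exists_countable_solution {d : ℕ} (hd : Odd d) {g : Fin n → MvPolynomial (Fin n) ℝ}
    (hg : ∀ k, (g k).totalDegree ≤ d) :
    ∃ C : Set ℝ, C.Countable ∧ ∀ δ ∉ C, ∃ c : Fin n → ℝ, ∀ k, c k ^ d + δ * eval c (g k) = 0 := by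
  choose C hC hbij using fun i => exists_bad_opT (n := n) hg i
  refine ⟨⋃ i, C i, Set.countable_iUnion hC, fun δ hδ => ?_⟩
  have hδ' : ∀ i, δ ∉ C i := fun i hi => hδ (Set.mem_iUnion.2 ⟨i, hi⟩)
  obtain ⟨hfin, hrank⟩ := finrank_quot (fun i _ => hbij i δ (hδ' i))
  set I := Ideal.span (Set.range (eqF d g δ)) with hI
  obtain ⟨c, a, ha, hc⟩ := exists_real_point (A := MvPolynomial (Fin n) ℝ ⧸ I)
    (by rw [hrank]; exact hd.pow) (fun i : Fin n => Ideal.Quotient.mk I (X i))
  refine ⟨c, fun k => ?_⟩
  have h1 : ∀ p : MvPolynomial (Fin n) ℝ, Ideal.Quotient.mk I p * a = eval c p • a := by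
    intro p
    induction p using MvPolynomial.induction_on with
    | C r =>
      rw [eval_C]
      change algebraMap ℝ (MvPolynomial (Fin n) ℝ ⧸ I) r * a = r • a
      exact (Algebra.smul_def r a).symm
    | add p q hp hq => rw [map_add, map_add, add_mul, hp, hq, add_smul]
    | mul_X p i hp =>
      rw [map_mul, map_mul, mul_assoc, hc i, mul_smul_comm, hp, smul_smul, eval_X, mul_comm]
  have h2 := h1 (eqF d g δ k)
  have h3 : Ideal.Quotient.mk I (eqF d g δ k) = 0 :=
    Ideal.Quotient.eq_zero_iff_mem.2 (Ideal.subset_span ⟨k, rfl⟩)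
  rw [h3, zero_mul] at h2
  have h4 := (smul_eq_zero.1 h2.symm).resolve_right ha
  rw [eqF, map_add, map_pow, eval_X, smul_eval] at h4
  exact h4

end Pool.Agent.Lib.BorsukUlam
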